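import Pool.Agent.Run7.h49.JT.Iface

/-!
# Project JT (MP_245e03_an, Q2): pieces U2, U3, U4, U7, L1
-/

set_option autoImplicit false

namespace Run7.h116.JT

open Pool.Agent.R277.JT Set Filter Topology Run7.h49.JT

theorem br_eq_of {c d : Br} {m n : ℕ} (h : br c m = br d m) (hn : n ≤ m) : br c n = br d n := by
  by_contra hne
  exact br_ne_of hne hn h

theorem anc_le {p e : ℕ} (h : anc p e) : p ≤ e := by
  obtain ⟨j, rfl⟩ := h
  exact Nat.div_le_self _ _

theorem anc_refl (e : ℕ) : anc e e := ⟨0, by simp⟩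

theorem anc_half {p e : ℕ} (h : anc p e) : anc (p / 2) e := by
  obtain ⟨j, rfl⟩ := h
  exact ⟨j + 1, by rw [pow_succ, ← Nat.div_div_eq_div_mul]⟩

theorem anc_of_half {p e : ℕ} (h : anc p (e / 2)) : anc p e := by
  obtain ⟨j, rfl⟩ := h
  exact ⟨j + 1, by rw [pow_succ', ← Nat.div_div_eq_div_mul]⟩

theorem anc_zero (e : ℕ) : anc 0 e := ⟨e, Nat.div_eq_of_lt Nat.lt_two_pow_self⟩

/-- a proper ancestor is an ancestor of the parent -/
theorem anc_cases {p e : ℕ} (h : anc p e) : p = e ∨ anc p (e / 2) := by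
  obtain ⟨j, rfl⟩ := h
  rcases j with _ | j
  · left; simp
  · right
    exact ⟨j, by rw [pow_succ', ← Nat.div_div_eq_div_mul]⟩

section

variable {y : ℕ → D Tree} {σ : ℕ → ℕ → Br} {u : ℕ → ℕ → ℝ} {I : ℕ → Finset ℕ}
  {k K : ℕ → ℕ} {ε : ℕ → ℝ} {M : ℝ}

theorem I_mono (h : Scheme y σ u I k K ε M) {p e : ℕ} (hpe : anc p e) : I p ⊆ I e := by
  obtain ⟨j, hj⟩ := hpe
  induction j generalizing e with
  | zero =>
    simp at hj
    rw [hj]
  | succ j ih =>
    rcases Nat.eq_zero_or_pos e with h0 | h0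
    · subst h0
      simp at hj
      rw [← hj]
    · rw [pow_succ', ← Nat.div_div_eq_div_mul] at hj
      exact (ih hj).trans (h.Isub e h0)

theorem zero_mem (h : Scheme y σ u I k K ε M) (t : ℕ) : 0 ∈ I t := I_mono h (anc_zero t) h.zero

theorem u2 (h : Scheme y σ u I k K ε M) {b e : ℕ} (hb : 1 ≤ b) (hbe : anc b e) {i : ℕ}
    (hi : i ∈ I (b / 2)) {n : ℕ} (hn : n ≤ K b) : br (σ e i) n = br (σ (b / 2) i) n := by
  obtain ⟨j, hj⟩ := hbe
  induction j generalizing e with
  | zero =>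
    simp at hj
    rw [hj]
    exact br_eq_of (h.agree b hb i hi) hn
  | succ j ih =>
    have hbe : anc b e := ⟨j + 1, hj⟩
    have hle := anc_le hbe
    rw [pow_succ', ← Nat.div_div_eq_div_mul] at hj
    have h2 : anc b (e / 2) := ⟨j, hj⟩
    have h3 : i ∈ I (e / 2) := I_mono h (anc_half h2) hi
    have h4 := h.agree e (by omega) i h3
    have h5 : n ≤ K e := hn.trans (h.Kmono.monotone hle)
    rw [br_eq_of h4 h5]
    exact ih hj

end

theorem prove_U2 : S_U2 := fun _ _ _ _ _ _ _ _ h b e hb hbe i hi n hn => u2 h hb hbe hi hn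

theorem u3 {y : ℕ → D Tree} {σ : ℕ → ℕ → Br} {u : ℕ → ℕ → ℝ} {I : ℕ → Finset ℕ}
    {k K : ℕ → ℕ} {ε : ℕ → ℝ} {M : ℝ} (h : Scheme y σ u I k K ε M) {b e b' e' : ℕ} (hb : 1 ≤ b)
    (hb' : 1 ≤ b') (hbe' : anc b' e') (hlt : b / 2 < b' / 2)
    {i : ℕ} (hi : i ∈ I (b / 2 / 2)) {i' : ℕ} (hi' : i' ∈ I (b' / 2 / 2)) {n : ℕ}
    (h2 : br (σ (b' / 2) i') n ≠ br (σ e' i') n) : br (σ (b / 2) i) n ≠ br (σ (b' / 2) i') n := by
  have hin : ∀ b : ℕ, I (b / 2) ⊆ I b := fun b => I_mono h (anc_half (anc_refl b))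
  have hn' : K b' < n := by
    by_contra hc
    exact h2 (u2 h hb' hbe' (hin _ hi') (not_lt.1 hc)).symm
  intro heq
  have h3 := br_eq_of heq hn'.le
  have h4 : σ (b / 2) i = σ (b' / 2) i' := by
    by_contra hne
    exact h.sep b' (b / 2) (by omega) (b' / 2) (by omega) i (hin _ hi) i' (hin _ hi') hne h3
  exact h.fresh (b' / 2) (by omega) i' hi' (b / 2) hlt i (hin _ hi) h4.symm

theorem prove_U3 : S_U3 := by
  intro y σ u I k K ε M h b e b' e' hb hb' hbe hbe' hne i hi i' hi' n h1 h2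
  rcases lt_or_gt_of_ne hne with hlt | hlt
  · exact u3 h (e := e) hb hb' hbe' hlt hi hi' h2
  · exact (u3 h (e := e') hb' hb hbe hlt hi' hi h1).symm

theorem prove_U4 : S_U4 := by
  intro c d k l hkl h
  have h1 := sg_sub (σ := br c) hkl
  have h2 := sg_sub (σ := br d) hkl
  have h3 : sp (br c) k l = sp (br d) k l := by
    ext x
    rw [sp_apply, sp_apply, ss_pc, ss_pc]
    exact Finset.sum_congr rfl fun n hn => by rw [h n (Finset.mem_Ico.1 hn).2]
  have h4 : sg (br c) k = sp (br c) k l + sg (br c) l := by rw [← h1]; abel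
  have h5 : sg (br d) k = sp (br d) k l + sg (br d) l := by rw [← h2]; abel
  rw [h4, h5, h3]
  abel

/-! ### U7 -/

/-- a list as a node of the tree -/
def T (l : List Bool) : Tree := l

theorem case_le (l : List Bool) (x : Bool) (c : Tree) :
    c ≤ T (l ++ [x]) ↔ c = T (l ++ [x]) ∨ c ≤ T l := by
  have h0 : T l ≤ T (l ++ [x]) := tree_le.2 ⟨[x], rfl⟩
  constructor
  · intro h
    rcases List.prefix_concat_iff.1 (tree_le.1 h) with h | h
    · exact Or.inl h
    · exact Or.inr (tree_le.2 h)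
  · rintro (h | h)
    · exact h.le
    · exact h.trans h0

theorem not_concat_le (l : List Bool) (x : Bool) : ¬ T (l ++ [x]) ≤ T l := by
  intro hc
  have := (tree_le.1 hc).length_le
  have h2 : (l ++ [x]).length ≤ l.length := this
  rw [List.length_append] at h2
  simp at h2

theorem u7_aux (hU6 : S_U6) {E : Type} [AddCommGroup E] (w : ℕ → E) (b : List Bool)
    (r : List Bool) : ∀ S : Finset Tree,
      (∀ c, c ∈ S ↔ T b ≤ c ∧ c ≤ T (b ++ r)) →
      ∑ t ∈ S, (w (io t) - w (io t / 2)) = w (io (T (b ++ r))) - w (io (T b) / 2) := by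
  induction r using List.reverseRecOn with
  | nil =>
    intro S hS
    rw [List.append_nil] at hS ⊢
    have : S = {T b} := by
      ext c
      rw [hS, Finset.mem_singleton]
      exact ⟨fun h => le_antisymm h.2 h.1, fun h => by rw [h]; exact ⟨le_rfl, le_rfl⟩⟩
    rw [this, Finset.sum_singleton]
  | append_singleton r x ih =>
    intro S hS
    classical
    rw [← List.append_assoc] at hS ⊢
    have hbe' : T b ≤ T (b ++ r) := tree_le.2 ⟨r, rfl⟩
    have he'e : T (b ++ r) ≤ T ((b ++ r) ++ [x]) := tree_le.2 ⟨[x], rfl⟩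
    have hS' : ∀ c, c ∈ S.erase (T ((b ++ r) ++ [x])) ↔ T b ≤ c ∧ c ≤ T (b ++ r) := by
      intro c
      rw [Finset.mem_erase, hS, case_le]
      constructor
      · rintro ⟨h1, h2, h3 | h3⟩
        · exact absurd h3 h1
        · exact ⟨h2, h3⟩
      · rintro ⟨h1, h2⟩
        refine ⟨?_, h1, Or.inr h2⟩
        intro h3
        rw [h3] at h2
        exact not_concat_le _ _ h2
    have heS : T ((b ++ r) ++ [x]) ∈ S := (hS _).2 ⟨hbe'.trans he'e, le_rfl⟩
    have h1 := ih (S.erase (T ((b ++ r) ++ [x]))) hS'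
    have h2 := Finset.add_sum_erase S (fun t => w (io t) - w (io t / 2)) heS
    rw [← h2, h1]
    have h3 : io (T ((b ++ r) ++ [x])) / 2 = io (T (b ++ r)) := hU6.2.2.1 (b ++ r) x
    rw [h3]
    abel

theorem prove_U7 (hU6 : S_U6) : S_U7 := by
  intro E _ w S b e hbe hS
  obtain ⟨r, hr⟩ := tree_le.1 hbe
  have hr' : T ((show List Bool from b) ++ r) = e := hr
  have hb : T (show List Bool from b) = b := rfl
  have := u7_aux hU6 w (show List Bool from b) r S (by rw [hr', hb]; exact hS)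
  rw [hr', hb] at this
  exact this

/-! ### L1 -/

section

variable {y : ℕ → D Tree} {σ : ℕ → ℕ → Br} {u : ℕ → ℕ → ℝ} {I : ℕ → Finset ℕ}
  {k K : ℕ → ℕ} {ε : ℕ → ℝ} {M : ℝ}

theorem l1a (h : Scheme y σ u I k K ε M) {s t : ℕ} (hst : anc s t) (hlt : s < t) {n : ℕ}
    (hn : n ≤ K (s + 1)) : br (σ t 0) n = br (σ s 0) n := by
  induction t using Nat.strong_induction_on with
  | _ t ih =>
    have h4 := h.agree t (by omega) 0 (zero_mem h _)
    have h5 : n ≤ K t := hn.trans (h.Kmono.monotone hlt)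
    rw [br_eq_of h4 h5]
    rcases anc_cases hst with h1 | h1
    · omega
    · rcases (anc_le h1).eq_or_lt with h2 | h2
      · rw [← h2]
      · exact ih (t / 2) (by omega) h1 h2

theorem l1b (h : Scheme y σ u I k K ε M) {s t : ℕ} (hs : 1 ≤ s) (hlt : s < t)
    (heq : br (σ t 0) (K (s + 1)) = br (σ s 0) (K (s + 1))) : anc s t := by
  induction t using Nat.strong_induction_on with
  | _ t ih =>
    have h4 := h.agree t (by omega) 0 (zero_mem h _)
    have h5 : K (s + 1) ≤ K t := h.Kmono.monotone hlt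
    have h6 := br_eq_of h4 h5
    rw [h6] at heq
    apply anc_of_half
    rcases lt_trichotomy (t / 2) s with h1 | h1 | h1
    · exfalso
      have h7 : σ (t / 2) 0 = σ s 0 := by
        by_contra hne
        exact h.sep (s + 1) (t / 2) (by omega) s (by omega) 0 (zero_mem h _) 0 (zero_mem h _) hne heq
      exact h.fresh s hs 0 (zero_mem h _) (t / 2) h1 0 (zero_mem h _) h7.symm
    · rw [h1]
      exact anc_refl s
    · exact ih (t / 2) (by omega) h1 heq

theorem l1 (h : Scheme y σ u I k K ε M) {s t : ℕ} (hs : 1 ≤ s) :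
    (br (σ s 0) (K (s + 1)) : Tree) ≤ br (σ t 0) (K (t + 1)) ↔ anc s t := by
  constructor
  · intro hle
    have h1 := IsBr.eq_of_le hle
    rw [IsBr.lev_eq] at h1
    have h2 := lev_mono hle
    rw [IsBr.lev_eq, IsBr.lev_eq] at h2
    have h3 : s ≤ t := by
      have := h.Kmono.le_iff_le.1 h2
      omega
    rcases h3.eq_or_lt with h4 | h4
    · rw [h4]
      exact anc_refl t
    · exact l1b h hs h4 h1.symm
  · intro hst
    rcases (anc_le hst).eq_or_lt with h4 | h4
    · rw [h4]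
    · rw [← l1a h hst h4 le_rfl]
      exact IsBr.mono (h.Kmono.monotone (by omega))

end

theorem prove_L1 (hU6 : S_U6) : S_L1 := by
  intro y σ u I k K ε M h s t
  rw [l1 h (hU6.1 s), hU6.2.2.2.1 s t]

end Run7.h116.JT
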